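import Pool.Agent.Helper36.JJ.Defs
import Pool.Agent.Helper16.Pin.RankD

/-!
JJ-1: circuits of the rigidity matroid.
-/

namespace Pool.Agent.Helper36.JJ

open Finset Module
open Pool.Agent.Helper36.Pin

variable {V : Type} [Fintype V] [DecidableEq V]

theorem rk_eq_card_of_sparse {F : Finset (Sym2 V)} (h : Sparse F) : rk F = F.card :=
  le_antisymm (rk_le_card F) (ModE.card_le_rk (Finset.Subset.refl F) h)

theorem circ_data {C : Finset (Sym2 V)} (hC : Circ C) :
    ∃ Y : Finset V, C ⊆ Y.sym2 ∧ 2 ≤ Y.card ∧ C.card + 2 = 2 * Y.card := by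
  obtain ⟨hd, hns, hmin⟩ := hC
  have h1 : ∃ Y : Finset V, 2 ≤ Y.card ∧ 2 * Y.card < (C ∩ Y.sym2).card + 3 := by
    by_contra hc
    push Not at hc
    exact hns ⟨hd, hc⟩
  obtain ⟨Y, hY2, hY⟩ := h1
  have hsub : C ⊆ Y.sym2 := by
    intro e he
    by_contra hn
    have h2 := (hmin e he).2 Y hY2
    have h3 : (C ∩ Y.sym2).card ≤ (C.erase e ∩ Y.sym2).card := by
      apply card_le_card
      intro f hf
      rw [mem_inter] at hf ⊢
      refine ⟨mem_erase.2 ⟨?_, hf.1⟩, hf.2⟩
      rintro rfl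
      exact hn hf.2
    omega
  rw [inter_eq_left.2 hsub] at hY
  have hne : C.Nonempty := by
    rw [← card_pos]
    omega
  obtain ⟨e, he⟩ := hne
  have h4 := (hmin e he).2 Y hY2
  rw [inter_eq_left.2 ((erase_subset e C).trans hsub), card_erase_of_mem he] at h4
  exact ⟨Y, hsub, hY2, by omega⟩

theorem Circ.nonempty {C : Finset (Sym2 V)} (hC : Circ C) : C.Nonempty := by
  obtain ⟨Y, h1, h2, h3⟩ := circ_data hC
  rw [← card_pos]
  omega

theorem circ_rk {C : Finset (Sym2 V)} (hC : Circ C) : rk C + 1 = C.card := by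
  obtain ⟨e, he⟩ := hC.nonempty
  have h1 := ModE.card_le_rk (erase_subset e C) (hC.2.2 e he)
  rw [card_erase_of_mem he] at h1
  have h2 := rk_le_card C
  have h3 : rk C ≠ C.card := by
    intro h
    obtain ⟨I, hIC, hI, hc⟩ := ModE.exists_sparse C
    rw [h] at hc
    have h4 := eq_of_subset_of_card_le hIC hc.ge
    rw [h4] at hI
    exact hC.2.1 hI
  have h4 := card_pos.2 ⟨e, he⟩
  omega

theorem circ_rk_erase {C : Finset (Sym2 V)} (hC : Circ C) {e : Sym2 V} (he : e ∈ C) :
    rk (C.erase e) = rk C := by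
  have h1 := circ_rk hC
  have h2 := rk_eq_card_of_sparse (hC.2.2 e he)
  rw [card_erase_of_mem he] at h2
  omega

theorem circ_exists_good {C : Finset (Sym2 V)} (hC : Circ C) :
    ∃ Y, Good C Y ∧ C.card + 2 = 2 * Y.card := by
  obtain ⟨Y, h1, h2, h3⟩ := circ_data hC
  have h4 := circ_rk hC
  exact ⟨Y, ⟨h1, h2, by omega, fun e he => circ_rk_erase hC he⟩, h3⟩

theorem exists_circ {F : Finset (Sym2 V)} (hd : ∀ e ∈ F, ¬ e.IsDiag) (h : ¬ Sparse F) :
    ∃ C ⊆ F, Circ C := by
  induction F using Finset.strongInduction with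
  | H F ih =>
    by_cases hall : ∀ e ∈ F, Sparse (F.erase e)
    · exact ⟨F, Finset.Subset.refl F, hd, h, hall⟩
    · push Not at hall
      obtain ⟨e, he, hns⟩ := hall
      obtain ⟨C, hCF, hC⟩ := ih (F.erase e) (erase_ssubset he)
        (fun f hf => hd f (mem_of_mem_erase hf)) hns
      exact ⟨C, hCF.trans (erase_subset e F), hC⟩

theorem rk_insert_mono {S T : Finset (Sym2 V)} {e : Sym2 V} (hST : S ⊆ T)
    (h : rk (insert e S) = rk S) : rk (insert e T) = rk T := by
  have h1 := rk_submod (insert e S) T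
  have h2 : insert e S ∪ T = insert e T := by
    rw [insert_union, union_eq_right.2 hST]
  have h3 : rk S ≤ rk (insert e S ∩ T) :=
    rk_mono (subset_inter (subset_insert e S) hST)
  have h4 : rk T ≤ rk (insert e T) := rk_mono (subset_insert e T)
  rw [h2] at h1
  omega

theorem rk_insert_of_circ {C S : Finset (Sym2 V)} (hC : Circ C) {e : Sym2 V} (he : e ∈ C)
    (hS : C.erase e ⊆ S) : rk (insert e S) = rk S := by
  apply rk_insert_mono hS
  rw [insert_erase he, circ_rk_erase hC he]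

theorem exists_circ_mem {F : Finset (Sym2 V)} (hd : ∀ e ∈ F, ¬ e.IsDiag) {e : Sym2 V}
    (he : e ∈ F) (h : rk (F.erase e) = rk F) : ∃ C ⊆ F, Circ C ∧ e ∈ C := by
  obtain ⟨B, hBF, hB, hBc⟩ := ModE.exists_sparse (F.erase e)
  have heB : e ∉ B := fun h' => (notMem_erase e F) (hBF h')
  have hBF' : insert e B ⊆ F := by
    intro f hf
    rw [mem_insert] at hf
    rcases hf with rfl | hf
    · exact he
    · exact mem_of_mem_erase (hBF hf)
  have hns : ¬ Sparse (insert e B) := by
    intro hs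
    have h1 := ModE.card_le_rk hBF' hs
    rw [card_insert_of_notMem heB] at h1
    omega
  obtain ⟨C, hCB, hC⟩ := exists_circ (fun f hf => hd f (hBF' hf)) hns
  refine ⟨C, hCB.trans hBF', hC, ?_⟩
  by_contra heC
  apply hC.2.1
  refine ModE.Sparse.subset hB fun f hf => ?_
  have h2 := hCB hf
  rw [mem_insert] at h2
  rcases h2 with rfl | h2
  · exact absurd hf heC
  · exact h2

end Pool.Agent.Helper36.JJ
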