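import Pool.Agent.Helper33.JJ.Circuits
import Pool.Agent.Helper36.Pin.H

/-!
JJ-2: good sets and vertices of degree three.
-/

namespace Pool.Agent.Helper36.JJ

open Finset Module
open Pool.Agent.Helper36.Pin

variable {V : Type} [Fintype V] [DecidableEq V]

theorem Good.add {F F' : Finset (Sym2 V)} {Y : Finset V} (h : Good F Y) (hF : F ⊆ F')
    (hF' : F' ⊆ Y.sym2) : Good F' Y := by
  have h1 := rk_mono hF
  have h2 := rk_inside_le F' Y h.two hF'
  have h3 := h.rigid
  refine ⟨hF', h.two, by omega, fun e he => ?_⟩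
  have h4 := rk_mono (erase_subset e F')
  by_cases heF : e ∈ F
  · have h5 := rk_mono (erase_subset_erase e hF)
    have h6 := h.red e heF
    omega
  · have h5 : F ⊆ F'.erase e := fun f hf => mem_erase.2 ⟨fun h' => heF (h' ▸ hf), hF hf⟩
    have h6 := rk_mono h5
    omega

theorem Good.union {F F' : Finset (Sym2 V)} {Y Y' : Finset V} (h : Good F Y) (h' : Good F' Y')
    (hi : 2 ≤ (Y ∩ Y').card) : Good (F ∪ F') (Y ∪ Y') := by
  obtain ⟨𝒳, h𝒳⟩ := exists_comps (F ∪ F')
  have hY : ∃ X ∈ 𝒳, Y ⊆ X := by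
    apply h𝒳.maximal Y h.two
    have h1 : rk F ≤ rk ((F ∪ F') ∩ Y.sym2) :=
      rk_mono (subset_inter subset_union_left h.sub)
    have h2 := h.rigid
    omega
  have hY' : ∃ X ∈ 𝒳, Y' ⊆ X := by
    apply h𝒳.maximal Y' h'.two
    have h1 : rk F' ≤ rk ((F ∪ F') ∩ Y'.sym2) :=
      rk_mono (subset_inter subset_union_right h'.sub)
    have h2 := h'.rigid
    omega
  obtain ⟨X, hX, hYX⟩ := hY
  obtain ⟨X', hX', hYX'⟩ := hY'
  have hXX : X = X' := by
    by_contra hne
    have h1 := h𝒳.inter X hX X' hX' hne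
    have h2 : (Y ∩ Y').card ≤ (X ∩ X').card := card_le_card (inter_subset_inter hYX hYX')
    omega
  subst hXX
  have hsub : F ∪ F' ⊆ (Y ∪ Y').sym2 :=
    union_subset (h.sub.trans (sym2_mono subset_union_left))
      (h'.sub.trans (sym2_mono subset_union_right))
  have hUX : Y ∪ Y' ⊆ X := union_subset hYX hYX'
  have htwo : 2 ≤ (Y ∪ Y').card := h.two.trans (card_le_card subset_union_left)
  have h3 := h𝒳.rigid X hX
  rw [inter_eq_left.2 (hsub.trans (sym2_mono hUX))] at h3
  have h4 := rk_inside_le _ _ htwo hsub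
  have h5 := card_le_card hUX
  refine ⟨hsub, htwo, by omega, fun e he => ?_⟩
  have hins : insert e ((F ∪ F').erase e) = F ∪ F' := insert_erase he
  rw [mem_union] at he
  rcases he with he | he
  · have h6 : rk (insert e (F.erase e)) = rk (F.erase e) := by
      rw [insert_erase he, h.red e he]
    have h7 := rk_insert_mono (erase_subset_erase e (subset_union_left (s₂ := F'))) h6
    rw [hins] at h7
    exact h7.symm
  · have h6 : rk (insert e (F'.erase e)) = rk (F'.erase e) := by
      rw [insert_erase he, h'.red e he]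
    have h7 := rk_insert_mono (erase_subset_erase e (subset_union_right (s₁ := F))) h6
    rw [hins] at h7
    exact h7.symm

theorem Good.four_le {F : Finset (Sym2 V)} {Y : Finset V} (h : Good F Y)
    (hd : ∀ e ∈ F, ¬ e.IsDiag) : 4 ≤ Y.card := by
  by_contra hlt
  have h1 := h.two
  have h2 := h.rigid
  have h3 := card_inside_le F Y hd h.sub
  have h4 := rk_le_card F
  have hne : F.Nonempty := by
    rw [← card_pos]
    omega
  obtain ⟨e, he⟩ := hne
  have h5 := h.red e he
  have h6 := rk_le_card (F.erase e)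
  rw [card_erase_of_mem he] at h6
  have h7 : Y.card = 2 ∨ Y.card = 3 := by omega
  rcases h7 with h7 | h7
  · rw [h7] at h3
    have : Nat.choose 2 2 = 1 := rfl
    omega
  · rw [h7] at h3
    have : Nat.choose 3 2 = 3 := rfl
    omega

/-- the lemma on vertices of degree three -/
theorem Good.erase_of_deg {F : Finset (Sym2 V)} {X : Finset V} (h : Good F X) {v : V}
    (hv : v ∈ X) (h3 : 3 ≤ X.card) (hd : (F.filter (fun e => v ∈ e)).card ≤ 3) :
    rk (F ∩ (X.erase v).sym2) + 3 = 2 * (X.erase v).card := by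
  have hc : (X.erase v).card = X.card - 1 := card_erase_of_mem hv
  have hup := rk_inside_le (F ∩ (X.erase v).sym2) (X.erase v) (by omega) inter_subset_right
  have hrig := h.rigid
  have hmem : ∀ f ∈ F, v ∉ f → f ∈ F ∩ (X.erase v).sym2 := by
    intro f hf hvf
    refine mem_inter.2 ⟨hf, ?_⟩
    have h1 := h.sub hf
    rw [mem_sym2_iff] at h1 ⊢
    intro w hw
    refine mem_erase.2 ⟨?_, h1 w hw⟩
    rintro rfl
    exact hvf hw
  by_cases hne : ∃ e ∈ F, v ∈ e
  · obtain ⟨e, he, hve⟩ := hne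
    have h1 : F.erase e ⊆ (F ∩ (X.erase v).sym2) ∪ (F.filter (fun e => v ∈ e)).erase e := by
      intro f hf
      rw [mem_erase] at hf
      rw [mem_union]
      by_cases hvf : v ∈ f
      · exact Or.inr (mem_erase.2 ⟨hf.1, mem_filter.2 ⟨hf.2, hvf⟩⟩)
      · exact Or.inl (hmem f hf.2 hvf)
    have h2 := rk_mono h1
    have h4 := rk_union_le (F ∩ (X.erase v).sym2) ((F.filter (fun e => v ∈ e)).erase e)
    have h5 := rk_le_card ((F.filter (fun e => v ∈ e)).erase e)
    rw [card_erase_of_mem (mem_filter.2 ⟨he, hve⟩)] at h5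
    have h6 := h.red e he
    omega
  · push Not at hne
    have h1 : F ⊆ F ∩ (X.erase v).sym2 := fun f hf => hmem f hf (hne f hf)
    have h2 := rk_mono h1
    omega

theorem exists_deg_le_three {C : Finset (Sym2 V)} {X : Finset V} (hCX : C ⊆ X.sym2)
    (hd : ∀ e ∈ C, ¬ e.IsDiag) (hc : C.card + 2 = 2 * X.card) :
    ∃ v ∈ X, (C.filter (fun e => v ∈ e)).card ≤ 3 := by
  by_contra hcon
  push Not at hcon
  have h1 : ∑ v ∈ X, (C.filter (fun e => v ∈ e)).card = ∑ e ∈ C, (X.filter (fun v => v ∈ e)).card := by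
    simp only [card_filter]
    exact sum_comm
  have h2 : ∑ v ∈ X, 4 ≤ ∑ v ∈ X, (C.filter (fun e => v ∈ e)).card :=
    sum_le_sum fun v hv => hcon v hv
  have h3 : ∑ e ∈ C, (X.filter (fun v => v ∈ e)).card ≤ ∑ e ∈ C, 2 := by
    refine sum_le_sum fun e _ => ?_
    induction e using Sym2.ind with
    | _ a b =>
      refine (card_le_card (t := {a, b}) ?_).trans card_le_two
      intro v hv
      rw [mem_filter, Sym2.mem_iff] at hv
      simpa using hv.2
  rw [sum_const, smul_eq_mul] at h2 h3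
  omega

end Pool.Agent.Helper36.JJ
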