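import Pool.Agent.Helper21.JJ.Rows

/-!
JJ-22: the fibre is bounded.
-/

namespace Pool.Agent.Helper36.JJ

open Finset Module
open Pool.Agent.Helper36.Pin

variable {V : Type} [Fintype V] [DecidableEq V]

theorem card_inside_one {B : Finset (Sym2 V)} (hB : Sparse B) {Z : Finset V} (hZ : Z.card = 1) :
    (B ∩ Z.sym2).card = 0 := by
  rw [card_eq_zero, eq_empty_iff_forall_notMem]
  intro e he
  rw [mem_inter] at he
  obtain ⟨a, rfl⟩ := card_eq_one.1 hZ
  obtain ⟨h1, h2⟩ := he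
  apply hB.1 e h1
  induction e using Sym2.ind with
  | _ u v =>
    rw [mk_mem_sym2, mem_singleton, mem_singleton] at h2
    rw [Sym2.mk_isDiag_iff, h2.1, h2.2]

/-- the graph with `2|V| - 4` sparse edges is connected -/
theorem eq_univ_of_closed {B : Finset (Sym2 V)} (hB : Sparse B)
    (hc : B.card + 4 = 2 * Fintype.card V) (h3 : 3 ≤ Fintype.card V) {X : Finset V}
    (hne : X.Nonempty) (hcl : ∀ u v, s(u, v) ∈ B → u ∈ X → v ∈ X) : X = univ := by
  by_contra hX
  have hXc : (Xᶜ).Nonempty := by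
    rw [nonempty_iff_ne_empty]
    intro h
    exact hX (compl_eq_empty_iff X |>.1 h)
  have h1 : B ⊆ (B ∩ X.sym2) ∪ (B ∩ (Xᶜ).sym2) := by
    intro e he
    induction e using Sym2.ind with
    | _ u v =>
      rw [mem_union, mem_inter, mem_inter, mk_mem_sym2, mk_mem_sym2, mem_compl, mem_compl]
      by_cases hu : u ∈ X
      · exact Or.inl ⟨he, hu, hcl u v he hu⟩
      · refine Or.inr ⟨he, hu, fun hv => hu (hcl v u ?_ hv)⟩
        rw [Sym2.eq_swap]
        exact he
  have h2 := (card_le_card h1).trans (card_union_le _ _)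
  have h4 : X.card + (Xᶜ).card = Fintype.card V := card_add_card_compl X
  have h5 := card_pos.2 hne
  have h6 := card_pos.2 hXc
  have h7 : ∀ Z : Finset V, 2 ≤ Z.card → (B ∩ Z.sym2).card + 3 ≤ 2 * Z.card := hB.2
  by_cases ha : X.card = 1
  · have h8 := card_inside_one hB ha
    have h9 := h7 Xᶜ (by omega)
    omega
  · by_cases hb : (Xᶜ).card = 1
    · have h8 := card_inside_one hB hb
      have h9 := h7 X (by omega)
      omega
    · have h8 := h7 X (by omega)
      have h9 := h7 Xᶜ (by omega)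
      omega

theorem bounded_fibre (B : Finset (Sym2 V)) (hB : Sparse B)
    (hc : B.card + 4 = 2 * Fintype.card V) (h3 : 3 ≤ Fintype.card V) (x₀ : V)
    (z₀ : V × Fin 2 → ℝ) :
    Bornology.IsBounded {z : V × Fin 2 → ℝ | z (x₀, 0) = z₀ (x₀, 0) ∧
      z (x₀, 1) = z₀ (x₀, 1) ∧
      ∀ e ∈ B, MvPolynomial.aeval z (lenE e) = MvPolynomial.aeval z₀ (lenE e)} := by
  classical
  set S : Set (V × Fin 2 → ℝ) := {z : V × Fin 2 → ℝ | z (x₀, 0) = z₀ (x₀, 0) ∧
      z (x₀, 1) = z₀ (x₀, 1) ∧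
      ∀ e ∈ B, MvPolynomial.aeval z (lenE e) = MvPolynomial.aeval z₀ (lenE e)} with hS
  have hall : (univ.filter fun w : V => ∃ C : ℝ, ∀ z ∈ S, ∀ i, |z (w, i)| ≤ C) = univ := by
    refine eq_univ_of_closed hB hc h3 ⟨x₀, ?_⟩ ?_
    · rw [mem_filter]
      refine ⟨mem_univ _, max |z₀ (x₀, 0)| |z₀ (x₀, 1)|, fun z hz i => ?_⟩
      fin_cases i
      · show |z (x₀, 0)| ≤ _
        rw [hz.1]
        exact le_max_left _ _
      · show |z (x₀, 1)| ≤ _
        rw [hz.2.1]
        exact le_max_right _ _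
    · intro u v he hu
      rw [mem_filter] at hu ⊢
      obtain ⟨-, C, hC⟩ := hu
      refine ⟨mem_univ _, C + (MvPolynomial.aeval z₀ (lenE s(u, v)) + 1), fun z hz i => ?_⟩
      have h1 := hz.2.2 _ he
      rw [aeval_lenE_mk z u v] at h1
      have h2 : (z (u, i) - z (v, i)) ^ 2 ≤ dsq (cfg z u) (cfg z v) := by
        have ha := sq_nonneg (z (u, 0) - z (v, 0))
        have hb := sq_nonneg (z (u, 1) - z (v, 1))
        fin_cases i
        · show (z (u, 0) - z (v, 0)) ^ 2 ≤ (z (u, 0) - z (v, 0)) ^ 2 + (z (u, 1) - z (v, 1)) ^ 2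
          linarith
        · show (z (u, 1) - z (v, 1)) ^ 2 ≤ (z (u, 0) - z (v, 0)) ^ 2 + (z (u, 1) - z (v, 1)) ^ 2
          linarith
      have h4 : |z (v, i)| ≤ |z (u, i)| + |z (u, i) - z (v, i)| := by
        have h5 : z (v, i) = z (u, i) - (z (u, i) - z (v, i)) := by ring
        calc |z (v, i)| = |z (u, i) - (z (u, i) - z (v, i))| := by rw [← h5]
          _ ≤ _ := abs_sub _ _
      have h6 : |z (u, i) - z (v, i)| ≤ (z (u, i) - z (v, i)) ^ 2 + 1 := by
        have h7 := sq_nonneg (|z (u, i) - z (v, i)| - 1)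
        have h8 := sq_abs (z (u, i) - z (v, i))
        have h9 := abs_nonneg (z (u, i) - z (v, i))
        nlinarith
      have h10 := hC z hz i
      linarith
  have hex : ∀ w : V, ∃ C : ℝ, ∀ z ∈ S, ∀ i, |z (w, i)| ≤ C := by
    intro w
    have h1 : w ∈ univ.filter fun w : V => ∃ C : ℝ, ∀ z ∈ S, ∀ i, |z (w, i)| ≤ C := by
      rw [hall]
      exact mem_univ w
    exact (mem_filter.1 h1).2
  choose C hC using hex
  rw [isBounded_iff_forall_norm_le]
  refine ⟨∑ w, |C w|, fun z hz => ?_⟩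
  rw [pi_norm_le_iff_of_nonneg (sum_nonneg fun w _ => abs_nonneg _)]
  rintro ⟨w, i⟩
  rw [Real.norm_eq_abs]
  exact (hC w z hz i).trans ((le_abs_self _).trans
    (single_le_sum (fun w _ => abs_nonneg (C w)) (mem_univ w)))

end Pool.Agent.Helper36.JJ
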