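import Pool.Agent.Helper70.JJ.Alg10
import Pool.Agent.Helper21.JJ.Rows
import Pool.Agent.Helper22.JJ.SparseRows
import Pool.Agent.Helper93.JJ.Deriv

/-!
JJ-23: implied lengths are constant on connected sets.
-/

namespace Pool.Agent.Helper36.JJ

open Finset Module
open Pool.Agent.Helper36.Pin

variable {V : Type} [Fintype V] [DecidableEq V]

/-- a countable preconnected set of real numbers has at most one element -/
theorem eq_of_preconnected_countable {A : Set ℝ} (hA : A.Countable) (hc : IsPreconnected A)
    {x y : ℝ} (hx : x ∈ A) (hy : y ∈ A) : x = y := by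
  have key : ∀ {x y : ℝ}, x ∈ A → y ∈ A → ¬ x < y := by
    intro x y hx hy hxy
    have h1 : Set.Icc x y ⊆ A := hc.Icc_subset hx hy
    have h2 : ¬ (Set.Icc x y).Countable := by
      rw [← Cardinal.le_aleph0_iff_set_countable, Cardinal.mk_Icc_real hxy, not_le]
      exact Cardinal.aleph0_lt_continuum
    exact h2 (hA.mono h1)
  rcases lt_trichotomy x y with h | h | h
  · exact absurd h (key hx hy)
  · exact h
  · exact absurd h (key hy hx)

theorem len_const (B : Finset (Sym2 V)) (e : Sym2 V)
    (hns : ¬ Sparse (insert e B)) (z₀ : V × Fin 2 → ℝ)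
    (hc : AlgebraicIndependent ℚ
      (fun e : B => MvPolynomial.aeval z₀ (lenE (e : Sym2 V))))
    (S : Set (V × Fin 2 → ℝ)) (hS : IsPreconnected S)
    (hfib : ∀ z ∈ S, ∀ e ∈ B, MvPolynomial.aeval z (lenE e) = MvPolynomial.aeval z₀ (lenE e)) :
    ∀ z ∈ S, ∀ z' ∈ S, MvPolynomial.aeval z (lenE e) = MvPolynomial.aeval z' (lenE e) := by
  classical
  set c : B → ℝ := fun e => MvPolynomial.aeval z₀ (lenE (e : Sym2 V)) with hcdef
  have hA := countable_algebraic c
  have hmem : ∀ z ∈ S, IsAlgebraic (Algebra.adjoin ℚ (Set.range c))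
      (MvPolynomial.aeval z (lenE e)) := by
    intro z hz
    by_contra hna
    have heB : e ∉ B := by
      intro heB
      apply hna
      rw [hfib z hz e heB]
      exact isAlgebraic_algebraMap (R := Algebra.adjoin ℚ (Set.range c)) (A := ℝ)
        ⟨c ⟨e, heB⟩, Algebra.subset_adjoin ⟨⟨e, heB⟩, rfl⟩⟩
    have hopt : AlgebraicIndependent ℚ
        (fun o : Option B => o.elim (MvPolynomial.aeval z (lenE e)) c) :=
      (hc.option_iff_transcendental _).2 hna
    have hopt' : AlgebraicIndependent ℚ (fun o : Option B => MvPolynomial.aeval z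
        (o.elim (lenE e) (fun e' : B => lenE (e' : Sym2 V)))) := by
      have h1 : (fun o : Option B => MvPolynomial.aeval z
          (o.elim (lenE e) (fun e' : B => lenE (e' : Sym2 V)))) =
          fun o : Option B => o.elim (MvPolynomial.aeval z (lenE e)) c := by
        funext o
        cases o with
        | none => rfl
        | some k => exact hfib z hz k k.2
      rw [h1]
      exact hopt
    have hgrad := grad_of_algIndep _ z hopt'
    -- reindexing
    let f : {x // x ∈ insert e B} → Option B := fun e' =>
      if h : (e' : Sym2 V) ∈ B then some ⟨e', h⟩ else none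
    have hf : Function.Injective f := by
      intro x y hxy
      apply Subtype.ext
      by_cases hx : (x : Sym2 V) ∈ B
      · by_cases hy : (y : Sym2 V) ∈ B
        · have h1 : f x = some ⟨x, hx⟩ := dif_pos hx
          have h2 : f y = some ⟨y, hy⟩ := dif_pos hy
          rw [h1, h2, Option.some.injEq, Subtype.mk.injEq] at hxy
          exact hxy
        · have h1 : f x = some ⟨x, hx⟩ := dif_pos hx
          have h2 : f y = none := dif_neg hy
          rw [h1, h2] at hxy
          exact absurd hxy (Option.some_ne_none _)
      · by_cases hy : (y : Sym2 V) ∈ B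
        · have h1 : f x = none := dif_neg hx
          have h2 : f y = some ⟨y, hy⟩ := dif_pos hy
          rw [h1, h2] at hxy
          exact absurd hxy.symm (Option.some_ne_none _)
        · have h3 : (x : Sym2 V) = e := (mem_insert.1 x.2).resolve_right hx
          have h4 : (y : Sym2 V) = e := (mem_insert.1 y.2).resolve_right hy
          rw [h3, h4]
    have hrow : LinearIndependent ℝ (fun e' : (insert e B : Finset (Sym2 V)) =>
        rowR (cfg z) (e' : Sym2 V)) := by
      have h1 := hgrad.comp f hf
      have h2 : ((fun o : Option B => grad (o.elim (lenE e) (fun e' : B => lenE (e' : Sym2 V))) z) ∘ f) =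
          fun e' : (insert e B : Finset (Sym2 V)) => (2 : ℝ) • rowR (cfg z) (e' : Sym2 V) := by
        funext e'
        show grad ((f e').elim (lenE e) (fun e' : B => lenE (e' : Sym2 V))) z = _
        by_cases hx : (e' : Sym2 V) ∈ B
        · have h3 : f e' = some ⟨e', hx⟩ := dif_pos hx
          rw [h3]
          exact grad_lenE z _
        · have h3 : f e' = none := dif_neg hx
          have h4 : (e' : Sym2 V) = e := (mem_insert.1 e'.2).resolve_right hx
          rw [h3, h4]
          exact grad_lenE z _
      rw [h2] at h1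
      rw [Fintype.linearIndependent_iff] at h1 ⊢
      intro g hg i
      apply h1 g _ i
      have h5 : ∑ i, g i • (2 : ℝ) • rowR (cfg z) ((i : (insert e B : Finset (Sym2 V))) : Sym2 V) =
          (2 : ℝ) • ∑ i, g i • rowR (cfg z) ((i : (insert e B : Finset (Sym2 V))) : Sym2 V) := by
        rw [smul_sum]
        exact sum_congr rfl fun i _ => smul_comm _ _ _
      rw [h5, hg, smul_zero]
    exact hns (sparse_of_rows (cfg z) _ hrow)
  -- connectedness
  intro z hz z' hz'
  have hcont : Continuous fun z : V × Fin 2 → ℝ => MvPolynomial.aeval z (lenE e) := by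
    have h1 : (fun z : V × Fin 2 → ℝ => MvPolynomial.aeval z (lenE e)) =
        fun z => (MvPolynomial.eval z) (MvPolynomial.map (algebraMap ℚ ℝ) (lenE e)) := by
      funext z
      rw [MvPolynomial.eval_map]
      rfl
    rw [h1]
    exact MvPolynomial.continuous_eval _
  have himg : IsPreconnected ((fun z : V × Fin 2 → ℝ => MvPolynomial.aeval z (lenE e)) '' S) :=
    hS.image _ hcont.continuousOn
  refine eq_of_preconnected_countable (hA.mono ?_) himg ⟨z, hz, rfl⟩ ⟨z', hz', rfl⟩
  rintro _ ⟨w, hw, rfl⟩
  exact hmem w hw

end Pool.Agent.Helper36.JJ
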