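import Pool.Agent.Helper21.JJ.Rows

/-!
JJ-24: near-by congruent configurations are equal.
-/

namespace Pool.Agent.Helper36.JJ

open Finset Module
open Pool.Agent.Helper36.Pin

variable {V : Type} [Fintype V] [DecidableEq V]

/-- a family of rows of a collinear configuration has at most `|V| - 1` elements -/
theorem card_le_of_collinear (B : Finset (Sym2 V)) (x₀ : V) (zs : V × Fin 2 → ℝ)
    (hrow : LinearIndependent ℝ (fun e : B => rowR (cfg zs) (e : Sym2 V))) (m : ℝ)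
    (hm : ∀ v, zs (v, 1) - zs (x₀, 1) = m * (zs (v, 0) - zs (x₀, 0))) :
    B.card + 1 ≤ Fintype.card V := by
  classical
  let Ψ : ({u : V // u ≠ x₀} → ℝ) →ₗ[ℝ] (V × Fin 2 → ℝ) :=
    { toFun := fun g x => (if h : x.1 = x₀ then - ∑ u, g u else g ⟨x.1, h⟩) *
        (if x.2 = 0 then 1 else m)
      map_add' := by
        intro g g'
        funext x
        by_cases h : x.1 = x₀
        · simp only [h, dif_pos, Pi.add_apply, sum_add_distrib]
          ring
        · simp only [h, dif_neg, Pi.add_apply, not_false_eq_true]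
          ring
      map_smul' := by
        intro a g
        funext x
        by_cases h : x.1 = x₀
        · simp only [h, dif_pos, Pi.smul_apply, smul_eq_mul, ← mul_sum, RingHom.id_apply]
          ring
        · simp only [h, dif_neg, Pi.smul_apply, smul_eq_mul, not_false_eq_true,
            RingHom.id_apply]
          ring }
  have hΨ : ∀ e : Sym2 V, rowR (cfg zs) e =
      Ψ (fun u => rowR (cfg zs) e (u, 0)) := by
    intro e
    induction e using Sym2.ind with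
    | _ v w =>
      have hmvw : zs (v, 1) - zs (w, 1) = m * (zs (v, 0) - zs (w, 0)) := by
        have h1 := hm v
        have h2 := hm w
        linarith
      have hcoef : ∀ i : Fin 2, cfg zs v i - cfg zs w i =
          (cfg zs v 0 - cfg zs w 0) * (if i = 0 then 1 else m) := by
        intro i
        fin_cases i
        · simp
        · show zs (v, 1) - zs (w, 1) = (zs (v, 0) - zs (w, 0)) * (if (1 : Fin 2) = 0 then 1 else m)
          rw [hmvw, if_neg (by decide)]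
          ring
      have hsum : ∑ u : V, ((if u = v then (1 : ℝ) else 0) - (if u = w then 1 else 0)) = 0 := by
        rw [sum_sub_distrib, sum_ite_eq' univ v, sum_ite_eq' univ w]
        simp
      funext x
      rw [rowR_mk]
      show row (cfg zs) v w x = (if h : x.1 = x₀ then
          - ∑ u : {u : V // u ≠ x₀}, row (cfg zs) v w (u, 0) else row (cfg zs) v w (x.1, 0)) *
        (if x.2 = 0 then 1 else m)
      by_cases h : x.1 = x₀
      · rw [dif_pos h]
        have h3 : ∑ u : {u : V // u ≠ x₀}, row (cfg zs) v w ((u : V), 0) =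
            - row (cfg zs) v w (x₀, 0) := by
          have h4 : ∑ u : V, row (cfg zs) v w (u, 0) = 0 := by
            simp only [row]
            rw [← mul_sum, hsum, mul_zero]
          rw [← Fintype.sum_subtype_add_sum_subtype (fun u : V => u ≠ x₀)
            (fun u => row (cfg zs) v w (u, 0))] at h4
          have h5 : ∑ i : {x // ¬ x ≠ x₀}, row (cfg zs) v w ((i : V), 0) =
              row (cfg zs) v w (x₀, 0) := by
            rw [Fintype.sum_eq_single (⟨x₀, by simp⟩ : {x // ¬ x ≠ x₀})]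
            intro i hi
            exfalso
            apply hi
            apply Subtype.ext
            have := i.2
            simpa using this
          rw [h5] at h4
          linarith
        rw [h3, neg_neg]
        simp only [row, h]
        rw [hcoef x.2]
        ring
      · rw [dif_neg h]
        simp only [row]
        rw [hcoef x.2]
        ring
  have h1 : LinearIndependent ℝ (fun e : B => fun u : {u : V // u ≠ x₀} =>
      rowR (cfg zs) (e : Sym2 V) ((u : V), 0)) := by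
    apply LinearIndependent.of_comp Ψ
    have h2 : (Ψ ∘ fun e : B => fun u : {u : V // u ≠ x₀} =>
        rowR (cfg zs) (e : Sym2 V) ((u : V), 0)) = fun e : B => rowR (cfg zs) (e : Sym2 V) := by
      funext e
      exact (hΨ e).symm
    rw [h2]
    exact hrow
  have h2 := h1.fintype_card_le_finrank
  rw [Module.finrank_fintype_fun_eq_card, Fintype.card_coe, Fintype.card_subtype_compl,
    Fintype.card_subtype_eq] at h2
  have h3 : 0 < Fintype.card V := Fintype.card_pos_iff.2 ⟨x₀⟩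
  omega

private theorem plane_w (d0 d1 X1 Y1 X2 Y2 s : ℝ) (hd : d0 ≠ 0)
    (h1 : X1 ^ 2 + Y1 ^ 2 = X2 ^ 2 + Y2 ^ 2)
    (h2 : (X1 - d0) ^ 2 + (Y1 - d1) ^ 2 = (X2 - d0) ^ 2 + (Y2 - d1) ^ 2)
    (hp : 0 < (d0 * Y1 - d1 * X1) * s) (hq : 0 < (d0 * Y2 - d1 * X2) * s) :
    X1 = X2 ∧ Y1 = Y2 := by
  have h3 : X1 * d0 + Y1 * d1 = X2 * d0 + Y2 * d1 := by linarith
  have h4 : (d0 * Y1 - d1 * X1) ^ 2 = (d0 * Y2 - d1 * X2) ^ 2 := by
    have h5 : (d0 * Y1 - d1 * X1) ^ 2 = (d0 ^ 2 + d1 ^ 2) * (X1 ^ 2 + Y1 ^ 2) -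
        (X1 * d0 + Y1 * d1) ^ 2 := by ring
    have h6 : (d0 * Y2 - d1 * X2) ^ 2 = (d0 ^ 2 + d1 ^ 2) * (X2 ^ 2 + Y2 ^ 2) -
        (X2 * d0 + Y2 * d1) ^ 2 := by ring
    rw [h5, h6, h1, h3]
  have h5 : d0 * Y1 - d1 * X1 = d0 * Y2 - d1 * X2 := by
    rcases sq_eq_sq_iff_eq_or_eq_neg.1 h4 with h | h
    · exact h
    · rw [h] at hp
      linarith
  have hpos : 0 < d0 ^ 2 + d1 ^ 2 := by positivity
  constructor
  · have h6 : (d0 ^ 2 + d1 ^ 2) * (X1 - X2) = 0 := by
      linear_combination d0 * h3 - d1 * h5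
    have := (mul_eq_zero.1 h6).resolve_left hpos.ne'
    linarith
  · have h6 : (d0 ^ 2 + d1 ^ 2) * (Y1 - Y2) = 0 := by
      linear_combination d1 * h3 + d0 * h5
    have := (mul_eq_zero.1 h6).resolve_left hpos.ne'
    linarith

private theorem plane_v (d0 d1 W0 W1 X1 Y1 X2 Y2 : ℝ) (hd : d0 * W1 - d1 * W0 ≠ 0)
    (h1 : X1 ^ 2 + Y1 ^ 2 = X2 ^ 2 + Y2 ^ 2)
    (h2 : (X1 - d0) ^ 2 + (Y1 - d1) ^ 2 = (X2 - d0) ^ 2 + (Y2 - d1) ^ 2)
    (h3 : (X1 - W0) ^ 2 + (Y1 - W1) ^ 2 = (X2 - W0) ^ 2 + (Y2 - W1) ^ 2) :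
    X1 = X2 ∧ Y1 = Y2 := by
  have h4 : (X1 - X2) * d0 + (Y1 - Y2) * d1 = 0 := by linarith
  have h5 : (X1 - X2) * W0 + (Y1 - Y2) * W1 = 0 := by linarith
  constructor
  · have h6 : (d0 * W1 - d1 * W0) * (X1 - X2) = 0 := by
      linear_combination W1 * h4 - d1 * h5
    have := (mul_eq_zero.1 h6).resolve_left hd
    linarith
  · have h6 : (d0 * W1 - d1 * W0) * (Y1 - Y2) = 0 := by
      linear_combination d0 * h5 - W0 * h4
    have := (mul_eq_zero.1 h6).resolve_left hd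
    linarith

theorem near_eq (B : Finset (Sym2 V)) (hc : B.card + 4 = 2 * Fintype.card V)
    (h4 : 4 ≤ Fintype.card V) (x₀ x₁ : V) (h01 : x₀ ≠ x₁) (zs : V × Fin 2 → ℝ)
    (hd : ∀ e ∈ B, ¬ e.IsDiag)
    (hrow : LinearIndependent ℝ (fun e : B => rowR (cfg zs) (e : Sym2 V)))
    (hne : zs (x₁, 0) ≠ zs (x₀, 0)) :
    ∃ ε > 0, ∀ z₁ z₂ : V × Fin 2 → ℝ, dist z₁ zs < ε → dist z₂ zs < ε →
      z₁ (x₀, 0) = z₂ (x₀, 0) → z₁ (x₀, 1) = z₂ (x₀, 1) → z₁ (x₁, 1) = z₂ (x₁, 1) →
      (∀ u v, dsq (cfg z₁ u) (cfg z₁ v) = dsq (cfg z₂ u) (cfg z₂ v)) → z₁ = z₂ := by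
  set D : V → (V × Fin 2 → ℝ) → ℝ := fun w z =>
    (z (x₁, 0) - z (x₀, 0)) * (z (w, 1) - z (x₀, 1)) -
      (z (x₁, 1) - z (x₀, 1)) * (z (w, 0) - z (x₀, 0)) with hD
  have hne' : zs (x₁, 0) - zs (x₀, 0) ≠ 0 := sub_ne_zero.2 hne
  obtain ⟨w, hw⟩ : ∃ w, D w zs ≠ 0 := by
    by_contra hno
    push Not at hno
    have h1 := card_le_of_collinear B x₀ zs hrow
      ((zs (x₁, 1) - zs (x₀, 1)) / (zs (x₁, 0) - zs (x₀, 0))) (fun v => by
        have h2 := hno v
        rw [hD] at h2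
        simp only at h2
        field_simp
        linarith)
    omega
  set s : ℝ := zs (x₁, 0) - zs (x₀, 0) with hs
  have hev : ∀ᶠ z in nhds zs, 0 < (z (x₁, 0) - z (x₀, 0)) * s ∧ 0 < D w z * D w zs := by
    have h1 : Continuous fun z : V × Fin 2 → ℝ => (z (x₁, 0) - z (x₀, 0)) * s := by fun_prop
    have h2 : Continuous fun z : V × Fin 2 → ℝ => D w z * D w zs := by
      rw [hD]
      fun_prop
    have h3 : 0 < (zs (x₁, 0) - zs (x₀, 0)) * s := by
      rw [hs]
      exact mul_self_pos.2 hne'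
    have h5 : 0 < D w zs * D w zs := mul_self_pos.2 hw
    exact ((h1.tendsto zs).eventually_const_lt h3).and ((h2.tendsto zs).eventually_const_lt h5)
  obtain ⟨ε, hε, hball⟩ := Metric.eventually_nhds_iff.1 hev
  refine ⟨ε, hε, fun z₁ z₂ hz₁ hz₂ e0 e1 e2 hdist => ?_⟩
  obtain ⟨ha1, hb1⟩ := hball hz₁
  obtain ⟨ha2, hb2⟩ := hball hz₂
  -- the first coordinate of `x₁`
  have e3 : z₁ (x₁, 0) = z₂ (x₁, 0) := by
    have h1 := hdist x₁ x₀
    simp only [dsq, cfg] at h1
    rw [e1, e2] at h1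
    have h2 : (z₁ (x₁, 0) - z₁ (x₀, 0)) ^ 2 = (z₂ (x₁, 0) - z₂ (x₀, 0)) ^ 2 := by linarith
    rcases sq_eq_sq_iff_eq_or_eq_neg.1 h2 with h | h
    · rw [e0] at h
      linarith
    · rw [h] at ha1
      linarith
  have hd0 : z₂ (x₁, 0) - z₂ (x₀, 0) ≠ 0 := by
    intro h
    rw [h, zero_mul] at ha2
    exact lt_irrefl _ ha2
  -- the vertex `w`
  have hw' : z₁ (w, 0) - z₂ (x₀, 0) = z₂ (w, 0) - z₂ (x₀, 0) ∧
      z₁ (w, 1) - z₂ (x₀, 1) = z₂ (w, 1) - z₂ (x₀, 1) := by
    refine plane_w (z₂ (x₁, 0) - z₂ (x₀, 0)) (z₂ (x₁, 1) - z₂ (x₀, 1)) _ _ _ _ (D w zs) hd0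
      ?_ ?_ ?_ ?_
    · have h1 := hdist w x₀
      simp only [dsq, cfg] at h1
      rw [e0, e1] at h1
      exact h1
    · have h1 := hdist w x₁
      simp only [dsq, cfg] at h1
      rw [e3, e2] at h1
      linear_combination h1
    · have h1 := hb1
      rw [hD] at h1
      simp only [e0, e1, e2, e3] at h1
      exact h1
    · have h1 := hb2
      rw [hD] at h1
      exact h1
  have hw0 : z₁ (w, 0) = z₂ (w, 0) := by linarith [hw'.1]
  have hw1 : z₁ (w, 1) = z₂ (w, 1) := by linarith [hw'.2]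
  have hdet : (z₂ (x₁, 0) - z₂ (x₀, 0)) * (z₂ (w, 1) - z₂ (x₀, 1)) -
      (z₂ (x₁, 1) - z₂ (x₀, 1)) * (z₂ (w, 0) - z₂ (x₀, 0)) ≠ 0 := by
    intro h
    have h1 : D w z₂ = 0 := h
    rw [h1, zero_mul] at hb2
    exact lt_irrefl _ hb2
  -- the other vertices
  have hall : ∀ v, z₁ (v, 0) = z₂ (v, 0) ∧ z₁ (v, 1) = z₂ (v, 1) := by
    intro v
    have h5 := plane_v _ _ _ _ (z₁ (v, 0) - z₂ (x₀, 0)) (z₁ (v, 1) - z₂ (x₀, 1))
      (z₂ (v, 0) - z₂ (x₀, 0)) (z₂ (v, 1) - z₂ (x₀, 1)) hdet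
      (by
        have h1 := hdist v x₀
        simp only [dsq, cfg] at h1
        rw [e0, e1] at h1
        exact h1)
      (by
        have h1 := hdist v x₁
        simp only [dsq, cfg] at h1
        rw [e3, e2] at h1
        linear_combination h1)
      (by
        have h1 := hdist v w
        simp only [dsq, cfg] at h1
        rw [hw0, hw1] at h1
        linear_combination h1)
    exact ⟨by linarith [h5.1], by linarith [h5.2]⟩
  funext x
  obtain ⟨v, i⟩ := x
  fin_cases i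
  · exact (hall v).1
  · exact (hall v).2

end Pool.Agent.Helper36.JJ
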