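import Pool.Agent.Helper36.JJ.Defs
import Pool.Agent.Helper70.JJ.Alg10

/-!
JJ-21: the function is not constant on an interval.
-/

namespace Pool.Agent.Helper36.JJ

open Finset Module
open Pool.Agent.Helper36.Pin

theorem exists_ne_on_interval {ι κ : Type} [Fintype ι] [Fintype κ]
    (F : κ → MvPolynomial ι ℚ) (h : MvPolynomial ι ℚ)
    (hc : Fintype.card κ + 1 = Fintype.card ι) (z₀ : ι → ℝ)
    (hz₀ : AlgebraicIndependent ℚ (fun o : Option κ => MvPolynomial.aeval z₀ (o.elim h F)))
    (zs : ι → ℝ) (hzs : ∀ k, MvPolynomial.aeval zs (F k) = MvPolynomial.aeval z₀ (F k))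
    (hdep : ¬ AlgebraicIndependent ℚ
      (fun o : Option κ => MvPolynomial.aeval zs (o.elim h F)))
    (γ : ℝ → ι → ℝ) (a b : ℝ) (hab : a < b) (hinj : Set.InjOn γ (Set.Icc a b))
    (hfib : ∀ t ∈ Set.Icc a b, ∀ k,
      MvPolynomial.aeval (γ t) (F k) = MvPolynomial.aeval z₀ (F k)) :
    ∃ t ∈ Set.Icc a b, MvPolynomial.aeval (γ t) h ≠ MvPolynomial.aeval zs h := by
  by_contra hcon
  push Not at hcon
  set c : κ → ℝ := fun k => MvPolynomial.aeval z₀ (F k) with hcdef
  have hcind : AlgebraicIndependent ℚ c := hz₀.comp some (Option.some_injective κ)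
  have hA := countable_algebraic c
  -- a point with a transcendental coordinate
  obtain ⟨t, ht, i, hti⟩ : ∃ t ∈ Set.Icc a b, ∃ i,
      ¬ IsAlgebraic (Algebra.adjoin ℚ (Set.range c)) (γ t i) := by
    by_contra hno
    push Not at hno
    have h1 : ({f : ι → ℝ | ∀ i, f i ∈ {t : ℝ | IsAlgebraic (Algebra.adjoin ℚ (Set.range c)) t}}).Countable :=
      Set.countable_pi fun _ => hA
    have hmt : Set.MapsTo γ (Set.Icc a b) {f : ι → ℝ | ∀ i, f i ∈
        {t : ℝ | IsAlgebraic (Algebra.adjoin ℚ (Set.range c)) t}} := by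
      intro t ht
      exact fun i => hno t ht i
    have h2 : (Set.Icc a b).Countable := Set.MapsTo.countable_of_injOn hmt hinj h1
    have h3 : ¬ (Set.Icc a b).Countable := by
      rw [← Cardinal.le_aleph0_iff_set_countable, Cardinal.mk_Icc_real hab, not_le]
      exact Cardinal.aleph0_lt_continuum
    exact h3 h2
  have hopt : AlgebraicIndependent ℚ (fun o : Option κ => o.elim (γ t i) c) :=
    (hcind.option_iff_transcendental (γ t i)).2 hti
  have hγ : AlgebraicIndependent ℚ (γ t) := by
    refine (algIndep_of_card (γ t) (fun o : Option κ => o.elim (γ t i) c) hopt ?_ ?_).1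
    · intro o
      cases o with
      | none => exact Algebra.subset_adjoin ⟨i, rfl⟩
      | some k =>
        show c k ∈ _
        rw [hcdef]
        show MvPolynomial.aeval z₀ (F k) ∈ _
        rw [← hfib t ht k, Algebra.adjoin_range_eq_range_aeval]
        exact ⟨F k, rfl⟩
    · rw [Fintype.card_option, hc]
  apply hdep
  have h4 := algIndep_transfer (fun o : Option κ => o.elim h F) z₀ (γ t) hz₀ hγ
  have h5 : (fun o : Option κ => MvPolynomial.aeval (γ t) (o.elim h F)) =
      fun o : Option κ => MvPolynomial.aeval zs (o.elim h F) := by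
    funext o
    cases o with
    | none => exact hcon t ht
    | some k =>
      show MvPolynomial.aeval (γ t) (F k) = MvPolynomial.aeval zs (F k)
      rw [hfib t ht k, hzs k]
  rw [h5] at h4
  exact h4

end Pool.Agent.Helper36.JJ
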